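import Pool.Agent.Lib.MP_56e41f_co.KX.Tree

/-!
# The Erdős–Sós theorem

A finite graph `G` with more than `(t - 2) n' / 2` edges, `n'` the number of its vertices which are
not isolated, contains every tree on `t` vertices.
-/

set_option autoImplicit false

namespace Pool.Agent.Results.MP_56e41f_co.ErdosSos

universe u v

/-- Let `G` be a finite simple graph and `T` a tree on `t` vertices. If `(t - 2) n' < 2 e(G)`, where
`n' ≤ |V(G)|` is the number of vertices of `G` which are not isolated, then `G` contains a copy
of `T`. -/
theorem result {V : Type v} [Fintype V] (G : SimpleGraph V) {W : Type u} [Fintype W]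
    (T : SimpleGraph W) (hT : T.IsTree)
    (h : ((Fintype.card W : ℤ) - 2) * (G.support.ncard : ℤ) < 2 * (G.edgeSet.ncard : ℤ)) :
    T.IsContained G :=
  MP56e41fKX.erdos_sos_noniso G T hT h

end Pool.Agent.Results.MP_56e41f_co.ErdosSos
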