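import Pool.Agent.Lib.MP_56e41f_co.Bridge
import Pool.Agent.Lib.MP_56e41f_co.FQ.Sparse

/-!
# Trees in random subgraphs of arbitrary graphs
-/

set_option autoImplicit false

open Finset Pool.Agent.Lib.MP_56e41f_co

namespace Pool.Agent.Results.MP_56e41f_co.FullQ1

/-- For every `c > 0` there is `K₀` such that for every `K ≥ K₀`, uniformly over ALL graphs `G` on
`n` vertices, of average degree `d`, ALL trees `T` with at most `(1 - c) d` vertices and maximum
degree at most `Δ`, and all `p` with `K Δ / d ≤ p ≤ 1`, the probability that `G_p` contains a copy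
of `T` tends to `1` as `n → ∞`. -/
theorem result : ∀ c : ℝ, 0 < c → ∃ K₀ : ℝ, ∀ K : ℝ, K₀ ≤ K → ∀ ε : ℝ, 0 < ε → ∃ n₀ : ℕ,
    ∀ (n : ℕ) (G : SimpleGraph (Fin n)) (t : ℕ) (T : SimpleGraph (Fin t)) (Δ : ℕ) (d p : ℝ),
      n₀ ≤ n → d = 2 * (G.edgeSet.ncard : ℝ) / n →
      T.IsTree → (t : ℝ) ≤ (1 - c) * d → (∀ v, (T.neighborSet v).ncard ≤ Δ) →
      K * Δ / d ≤ p → p ≤ 1 →
      1 - ε ≤ percProb G p (fun H => T.IsContained H) := by
  classical
  intro c hc
  by_cases hc1 : c < 1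
  swap
  · refine ⟨0, fun K hK ε hε => ⟨0, ?_⟩⟩
    intro n G t T Δ d p hn hd hT ht hΔ hp hp1
    exfalso
    obtain ⟨x⟩ := hT.1.nonempty
    have h1 : (1 : ℝ) ≤ t := by exact_mod_cast (lt_of_le_of_lt (Nat.zero_le _) x.2)
    have h2 : 0 ≤ d := by rw [hd]; positivity
    have h3 : (1 - c) * d ≤ 0 := mul_nonpos_of_nonpos_of_nonneg (by linarith) h2
    linarith
  obtain ⟨K0, hK0, hmain⟩ := FQ.all_cases c hc hc1 (FQ.sparse_case c hc hc1)
  refine ⟨K0, fun K hK ε hε => ?_⟩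
  obtain ⟨n0, hn0⟩ := hmain K hK ε hε
  refine ⟨n0 + 1, ?_⟩
  intro n G t T Δ d p hn hd hT ht hΔ hp hp1
  have hnpos : 0 < n := by omega
  have hnR : (0 : ℝ) < n := by exact_mod_cast hnpos
  have : Nonempty (Fin n) := ⟨⟨0, hnpos⟩⟩
  obtain ⟨x⟩ := hT.1.nonempty
  have ht1 : 1 ≤ t := lt_of_le_of_lt (Nat.zero_le _) x.2
  have ht1' : (1 : ℝ) ≤ t := by exact_mod_cast ht1
  rcases Nat.eq_or_lt_of_le ht1 with ht1'' | ht2
  · exact percProb_one G T (by rw [Fintype.card_fin]; exact ht1''.symm) hε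
  have hΔ1 : 1 ≤ Δ := one_le_of_tree T hT (by rw [Fintype.card_fin]; exact ht2) hΔ
  have hd0 : 0 < d := by
    by_contra hh
    push Not at hh
    have h5 : (1 - c) * d ≤ 0 := mul_nonpos_of_nonneg_of_nonpos (by linarith) hh
    linarith
  obtain ⟨D, e, hadj, he⟩ := exists_TD T hT Δ hΔ
  have hK1 : 0 ≤ K := by linarith
  have hp0 : 0 ≤ p := by
    refine le_trans ?_ hp
    positivity
  refine percProb_ge G T D e he hp0 hp1 ?_
  have hcard : (G.edgeFinset.card : ℝ) = G.edgeSet.ncard := by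
    rw [Set.ncard_eq_toFinset_card']
    congr 2
  have hE : d / 2 * n = G.edgeFinset.card := by
    rw [hcard, hd]
    field_simp
  have hdn : d ≤ n := by
    have h1 : (G.edgeFinset.card : ℝ) ≤ (n.choose 2 : ℕ) := by
      have := G.card_edgeFinset_le_card_choose_two
      rw [Fintype.card_fin] at this
      exact_mod_cast this
    have h2 : ((n.choose 2 : ℕ) : ℝ) ≤ (n : ℝ) * n / 2 := by
      rw [Nat.cast_choose_two]
      nlinarith
    have h3 : d / 2 * n ≤ (n : ℝ) / 2 * n := by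
      rw [hE]
      linarith
    have h4 := le_of_mul_le_mul_right h3 hnR
    linarith
  refine hn0 (Fin n) (Fintype.card (Fin t)) Δ D G G.edgeFinset d p
    (by rw [Fintype.card_fin]; omega) (by rw [Fintype.card_fin]; omega) hΔ1 ?_ hd0
    (by rw [Fintype.card_fin]; exact hdn) (by rw [Fintype.card_fin]; exact hE.le) hp hp1
    (by rw [Fintype.card_fin]; exact ht)
  intro u v
  rw [SimpleGraph.mem_edgeFinset, SimpleGraph.mem_edgeSet]

end Pool.Agent.Results.MP_56e41f_co.FullQ1
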